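import Mathlib

set_option autoImplicit false

/-!
Chebyshev count of the unbalanced monomials.
-/

namespace Pool.Agent.MP_077ac3_nt.H56

open Finset

theorem sum_sq_le {m : ℕ} {κ : Type} [DecidableEq κ] (T : Fin m → Finset κ) (f : Fin m → κ → ℝ)
    (h0 : ∀ h, ∑ j ∈ T h, f h j = 0) (h1 : ∀ h, ∀ j ∈ T h, |f h j| ≤ 1) :
    ∑ J ∈ Fintype.piFinset T, (∑ h, f h (J h)) ^ 2 ≤ m * (Fintype.piFinset T).card := by
  have cross : ∀ h h', h ≠ h' → ∑ J ∈ Fintype.piFinset T, f h (J h) * f h' (J h') = 0 := by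
    intro h h' hne
    have := Finset.prod_univ_sum T
      (fun k j => (if k = h then f k j else 1) * (if k = h' then f k j else 1))
    simp only [prod_mul_distrib, prod_ite_eq', mem_univ, if_true] at this
    rw [← this]
    refine Finset.prod_eq_zero (mem_univ h) ?_
    simp [hne, h0]
  have e : ∀ J : Fin m → κ, (∑ h, f h (J h)) ^ 2 = ∑ h, ∑ h', f h (J h) * f h' (J h') := by
    intro J
    rw [sq, Finset.sum_mul_sum]
  simp only [e]
  rw [Finset.sum_comm]
  calc ∑ h, ∑ J ∈ Fintype.piFinset T, ∑ h', f h (J h) * f h' (J h')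
      ≤ ∑ _h : Fin m, ((Fintype.piFinset T).card : ℝ) := by
        refine Finset.sum_le_sum fun h _ => ?_
        rw [Finset.sum_comm, Finset.sum_eq_single h (fun h' _ hh => cross h h' hh.symm) (by simp)]
        calc ∑ J ∈ Fintype.piFinset T, f h (J h) * f h (J h)
            ≤ ∑ _J ∈ Fintype.piFinset T, (1 : ℝ) := by
              refine Finset.sum_le_sum fun J hJ => ?_
              have := h1 h (J h) (Fintype.mem_piFinset.1 hJ h)
              rw [abs_le] at this
              nlinarith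
          _ = _ := by simp
    _ = _ := by simp

theorem sum_coord_eq {ι : Type} [Fintype ι] [DecidableEq ι] (d : ℕ) (i i' : ι) :
    ∑ j ∈ piAntidiag (univ : Finset ι) d, (j i : ℝ) =
      ∑ j ∈ piAntidiag (univ : Finset ι) d, (j i' : ℝ) := by
  have hm : ∀ j ∈ piAntidiag (univ : Finset ι) d,
      (fun k => j (Equiv.swap i i' k)) ∈ piAntidiag (univ : Finset ι) d := by
    intro j hj
    simp only [mem_piAntidiag, mem_univ, implies_true, and_true] at hj ⊢
    rw [← hj]
    exact Equiv.sum_comp (Equiv.swap i i') j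
  refine Finset.sum_nbij' (fun j k => j (Equiv.swap i i' k)) (fun j k => j (Equiv.swap i i' k))
    hm hm ?_ ?_ ?_
  · intro j _
    ext k
    simp
  · intro j _
    ext k
    simp
  · intro j _
    simp

theorem sum_dev_eq_zero {ι : Type} [Fintype ι] [DecidableEq ι] [Nonempty ι] (d : ℕ) (hd : 0 < d)
    (i : ι) :
    ∑ j ∈ piAntidiag (univ : Finset ι) d, ((j i : ℝ) / d - 1 / (Fintype.card ι : ℝ)) = 0 := by
  have hN : (0 : ℝ) < Fintype.card ι := by exact_mod_cast Fintype.card_pos
  have hd' : (0 : ℝ) < d := by exact_mod_cast hd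
  have h1 : (Fintype.card ι : ℝ) * ∑ j ∈ piAntidiag (univ : Finset ι) d, (j i : ℝ) =
      d * (piAntidiag (univ : Finset ι) d).card := by
    calc (Fintype.card ι : ℝ) * ∑ j ∈ piAntidiag (univ : Finset ι) d, (j i : ℝ)
        = ∑ i' : ι, ∑ j ∈ piAntidiag (univ : Finset ι) d, (j i' : ℝ) := by
          rw [Finset.sum_congr rfl fun i' _ => sum_coord_eq d i' i]
          simp
      _ = ∑ j ∈ piAntidiag (univ : Finset ι) d, (d : ℝ) := by
          rw [Finset.sum_comm]
          refine Finset.sum_congr rfl fun j hj => ?_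
          simp only [mem_piAntidiag, mem_univ, implies_true, and_true] at hj
          rw [← hj]
          push_cast
          rfl
      _ = _ := by simp [mul_comm]
  rw [Finset.sum_sub_distrib, ← Finset.sum_div, Finset.sum_const, nsmul_eq_mul]
  field_simp
  linarith

theorem abs_dev_le {ι : Type} [Fintype ι] [DecidableEq ι] [Nonempty ι] (d : ℕ) (hd : 0 < d)
    (i : ι) (j : ι → ℕ) (hj : j ∈ piAntidiag (univ : Finset ι) d) :
    |(j i : ℝ) / d - 1 / (Fintype.card ι : ℝ)| ≤ 1 := by
  have hN : (1 : ℝ) ≤ Fintype.card ι := by exact_mod_cast Fintype.card_pos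
  have hd' : (0 : ℝ) < d := by exact_mod_cast hd
  simp only [mem_piAntidiag, mem_univ, implies_true, and_true] at hj
  have h1 : j i ≤ d := hj ▸ Finset.single_le_sum (f := j) (fun _ _ => Nat.zero_le _) (mem_univ i)
  have h2 : (j i : ℝ) / d ≤ 1 := by
    rw [div_le_one hd']
    exact_mod_cast h1
  have h3 : 0 ≤ (j i : ℝ) / d := by positivity
  have h4 : 1 / (Fintype.card ι : ℝ) ≤ 1 := by
    rw [div_le_one (by linarith)]
    exact hN
  have h5 : 0 ≤ 1 / (Fintype.card ι : ℝ) := by positivity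
  rw [abs_le]
  constructor <;> linarith

/-- The exponent arrays of multidegree `d`. -/
def box {m : ℕ} (ι : Type) [Fintype ι] [DecidableEq ι] (d : Fin m → ℕ) :
    Finset (Fin m → ι → ℕ) :=
  Fintype.piFinset fun h => piAntidiag (univ : Finset ι) (d h)

theorem mem_box {m : ℕ} {ι : Type} [Fintype ι] [DecidableEq ι] {d : Fin m → ℕ}
    {J : Fin m → ι → ℕ} : J ∈ box ι d ↔ ∀ h, ∑ i, J h i = d h := by
  simp [box, Fintype.mem_piFinset]

theorem box_card_pos {m : ℕ} (ι : Type) [Fintype ι] [DecidableEq ι] [Nonempty ι]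
    (d : Fin m → ℕ) : 0 < (box ι d).card := by
  obtain ⟨i⟩ := ‹Nonempty ι›
  exact Finset.card_pos.2 ⟨fun h => Pi.single i (d h), mem_box.2 fun h => by simp⟩

theorem box_card_le {m : ℕ} (ι : Type) [Fintype ι] [DecidableEq ι] (d : Fin m → ℕ) :
    (box ι d).card ≤ (2 ^ Fintype.card ι) ^ ∑ h, d h := by
  rw [box, Fintype.card_piFinset, ← Finset.prod_pow_eq_pow_sum]
  refine Finset.prod_le_prod' fun h _ => ?_
  calc (piAntidiag (univ : Finset ι) (d h)).card
      ≤ (Fintype.piFinset fun _ : ι => range (d h + 1)).card := by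
        refine Finset.card_le_card fun j hj => ?_
        simp only [mem_piAntidiag, mem_univ, implies_true, and_true] at hj
        rw [Fintype.mem_piFinset]
        intro i
        rw [mem_range, Nat.lt_succ_iff, ← hj]
        exact Finset.single_le_sum (f := j) (fun _ _ => Nat.zero_le _) (mem_univ i)
    _ = (d h + 1) ^ Fintype.card ι := by simp
    _ ≤ (2 ^ d h) ^ Fintype.card ι := Nat.pow_le_pow_left Nat.lt_two_pow_self _
    _ = _ := by rw [← pow_mul, ← pow_mul, mul_comm]

/-- Balanced exponent arrays. -/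
def Good {m : ℕ} {ι : Type} [Fintype ι] (d : Fin m → ℕ) (ε : ℝ) (J : Fin m → ι → ℕ) : Prop :=
  ∀ i, (m : ℝ) * (1 / (Fintype.card ι : ℝ) - ε) ≤ ∑ h, (J h i : ℝ) / d h

open Classical in
theorem bad_card_le {m : ℕ} (ι : Type) [Fintype ι] [DecidableEq ι] [Nonempty ι] (d : Fin m → ℕ)
    (hd : ∀ h, 0 < d h) (ε : ℝ) (hε : 0 < ε) (hm : 0 < m) :
    (((box ι d).filter fun J => ¬ Good d ε J).card : ℝ) * (m * ε ^ 2) ≤
      Fintype.card ι * (box ι d).card := by
  have hm' : (0 : ℝ) < m := by exact_mod_cast hm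
  have one : ∀ i : ι, (((box ι d).filter fun J =>
      ∑ h, (J h i : ℝ) / d h < (m : ℝ) * (1 / (Fintype.card ι : ℝ) - ε)).card : ℝ) *
        (m * ε ^ 2) ≤ (box ι d).card := by
    intro i
    have h1 := sum_sq_le (fun h => piAntidiag (univ : Finset ι) (d h))
      (fun h j => (j i : ℝ) / d h - 1 / (Fintype.card ι : ℝ))
      (fun h => sum_dev_eq_zero (d h) (hd h) i) (fun h j hj => abs_dev_le (d h) (hd h) i j hj)
    have h2 : (((box ι d).filter fun J =>
        ∑ h, (J h i : ℝ) / d h < (m : ℝ) * (1 / (Fintype.card ι : ℝ) - ε)).card : ℝ) *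
          (m * ε) ^ 2 ≤ ∑ J ∈ box ι d, (∑ h, ((J h i : ℝ) / d h - 1 / (Fintype.card ι : ℝ))) ^ 2 := by
      rw [← nsmul_eq_mul, ← Finset.sum_const]
      refine (Finset.sum_le_sum fun J hJ => ?_).trans
        (Finset.sum_le_sum_of_subset_of_nonneg (Finset.filter_subset _ _) fun _ _ _ => sq_nonneg _)
      have h3 := (Finset.mem_filter.1 hJ).2
      rw [Finset.sum_sub_distrib, Finset.sum_const, card_univ, Fintype.card_fin, nsmul_eq_mul]
      have h4 : 0 < (m : ℝ) * ε := by positivity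
      nlinarith
    have h3 := h2.trans h1
    change _ ≤ (m : ℝ) * (box ι d).card at h3
    refine le_of_mul_le_mul_left ?_ hm'
    calc _ = _ := by ring
      _ ≤ _ := h3
  have sub : ((box ι d).filter fun J => ¬ Good d ε J) ⊆ univ.biUnion fun i : ι =>
      (box ι d).filter fun J =>
        ∑ h, (J h i : ℝ) / d h < (m : ℝ) * (1 / (Fintype.card ι : ℝ) - ε) := by
    intro J hJ
    rw [Finset.mem_filter, Good, not_forall] at hJ
    obtain ⟨hJ, i, hi⟩ := hJ
    exact Finset.mem_biUnion.2 ⟨i, mem_univ _, Finset.mem_filter.2 ⟨hJ, not_le.1 hi⟩⟩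
  have h1 := (Finset.card_le_card sub).trans Finset.card_biUnion_le
  have h2 : (((box ι d).filter fun J => ¬ Good d ε J).card : ℝ) ≤ ∑ i : ι,
      (((box ι d).filter fun J =>
        ∑ h, (J h i : ℝ) / d h < (m : ℝ) * (1 / (Fintype.card ι : ℝ) - ε)).card : ℝ) := by
    exact_mod_cast h1
  refine (mul_le_mul_of_nonneg_right h2 (by positivity)).trans ?_
  rw [Finset.sum_mul]
  refine (Finset.sum_le_sum fun i _ => one i).trans ?_
  simp

end Pool.Agent.MP_077ac3_nt.H56
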