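import Mathlib

set_option autoImplicit false

/-!
Integer coordinates of the coefficients of products of linear forms with algebraic coefficients,
and an elementary form of Siegel's lemma.
-/

namespace Pool.Agent.MP_077ac3_nt.H56

open MvPolynomial

/-- `x` is an integer combination of the `ω k` with coefficients bounded by `B`. -/
def Rep {r : ℕ} (ω : Fin r → ℝ) (B : ℝ) (x : ℝ) : Prop :=
  ∃ a : Fin r → ℤ, (∀ k, |(a k : ℝ)| ≤ B) ∧ x = ∑ k, (a k : ℝ) * ω k

theorem Rep.zero {r : ℕ} (ω : Fin r → ℝ) {B : ℝ} (hB : 0 ≤ B) : Rep ω B 0 :=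
  ⟨0, fun k => by simpa using hB, by simp⟩

theorem Rep.mono {r : ℕ} {ω : Fin r → ℝ} {B B' x : ℝ} (h : Rep ω B x) (hB : B ≤ B') :
    Rep ω B' x := by
  obtain ⟨a, ha, hx⟩ := h
  exact ⟨a, fun k => (ha k).trans hB, hx⟩

theorem Rep.sum {r : ℕ} {ω : Fin r → ℝ} {ι : Type} [Fintype ι] {B : ℝ} {x : ι → ℝ}
    (h : ∀ j, Rep ω B (x j)) : Rep ω (Fintype.card ι * B) (∑ j, x j) := by
  choose a ha hx using h
  refine ⟨fun k => ∑ j, a j k, fun k => ?_, ?_⟩
  · push_cast
    refine (Finset.abs_sum_le_sum_abs _ _).trans ?_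
    calc ∑ j, |(a j k : ℝ)| ≤ ∑ _j : ι, B := Finset.sum_le_sum fun j _ => ha j k
      _ = Fintype.card ι * B := by simp
  · simp only [hx]
    rw [Finset.sum_comm]
    refine Finset.sum_congr rfl fun k _ => ?_
    push_cast
    rw [Finset.sum_mul]

theorem Rep.mul {r : ℕ} {ω : Fin r → ℝ} {A B x y : ℝ} (hy : ∀ k, Rep ω A (y * ω k))
    (hA : 0 ≤ A) (h : Rep ω B x) : Rep ω (r * A * B) (y * x) := by
  obtain ⟨a, ha, hx⟩ := h
  choose c hc hy using hy
  refine ⟨fun l => ∑ k, a k * c k l, fun l => ?_, ?_⟩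
  · push_cast
    refine (Finset.abs_sum_le_sum_abs _ _).trans ?_
    calc ∑ k, |(a k : ℝ) * c k l| ≤ ∑ _k : Fin r, A * B := Finset.sum_le_sum fun k _ => by
          rw [abs_mul, mul_comm]
          exact mul_le_mul (hc k l) (ha k) (abs_nonneg _) hA
      _ = r * A * B := by simp [mul_assoc]
  · rw [hx, Finset.mul_sum]
    have : ∀ k, y * ((a k : ℝ) * ω k) = ∑ l, (a k : ℝ) * c k l * ω l := fun k => by
      rw [mul_left_comm, hy k, Finset.mul_sum]
      simp only [mul_assoc]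
    simp only [this]
    rw [Finset.sum_comm]
    refine Finset.sum_congr rfl fun l _ => ?_
    push_cast
    rw [Finset.sum_mul]

/-- A finite family of algebraic reals, scaled by an integer, acts on a finitely generated
subgroup of the reals containing `1`. -/
theorem exists_frame {κ : Type} [Fintype κ] (y : κ → ℝ) (hy : ∀ i, IsAlgebraic ℚ (y i)) :
    ∃ (t : ℤ) (r : ℕ) (ω : Fin r → ℝ) (A : ℝ), t ≠ 0 ∧ 1 ≤ A ∧ Rep ω A 1 ∧
      ∀ i k, Rep ω A ((t : ℝ) * y i * ω k) := by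
  classical
  have h1 : ∀ i, ∃ c : ℤ, c ≠ 0 ∧ IsIntegral ℤ (c • y i) := fun i =>
    ((IsFractionRing.isAlgebraic_iff ℤ ℚ ℝ).2 (hy i)).exists_integral_multiple
  choose c hc0 hc using h1
  set t : ℤ := ∏ i, c i with ht
  have hint : ∀ i, IsIntegral ℤ ((t : ℝ) * y i) := fun i => by
    have : (t : ℝ) * y i = (∏ j ∈ Finset.univ.erase i, c j) • (c i • y i) := by
      rw [smul_smul, Finset.prod_erase_mul _ _ (Finset.mem_univ i), zsmul_eq_mul]
    rw [this]
    exact (hc i).smul _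
  have hfg : (Algebra.adjoin ℤ (Set.range fun i => (t : ℝ) * y i)).toSubmodule.FG :=
    fg_adjoin_of_finite (Set.finite_range _) (by rintro _ ⟨i, rfl⟩; exact hint i)
  obtain ⟨r, ω, hω⟩ := Submodule.fg_iff_exists_fin_generating_family.1 hfg
  have key : ∀ x ∈ Algebra.adjoin ℤ (Set.range fun i => (t : ℝ) * y i), ∃ A, Rep ω A x := by
    intro x hx
    have hx' : x ∈ Submodule.span ℤ (Set.range ω) := by rw [hω]; exact hx
    obtain ⟨a, ha⟩ := (Submodule.mem_span_range_iff_exists_fun ℤ).1 hx'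
    refine ⟨∑ k, |(a k : ℝ)|, a, fun k => ?_, ?_⟩
    · exact Finset.single_le_sum (f := fun k => |(a k : ℝ)|) (fun _ _ => abs_nonneg _)
        (Finset.mem_univ k)
    · rw [← ha]
      simp [zsmul_eq_mul]
  have hωm : ∀ k, ω k ∈ Algebra.adjoin ℤ (Set.range fun i => (t : ℝ) * y i) := fun k => by
    have : ω k ∈ Submodule.span ℤ (Set.range ω) := Submodule.subset_span ⟨k, rfl⟩
    rw [hω] at this
    exact this
  obtain ⟨A0, hA0⟩ := key 1 (one_mem _)
  have h2 : ∀ p : κ × Fin r, ∃ A, Rep ω A ((t : ℝ) * y p.1 * ω p.2) := fun p =>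
    key _ (mul_mem (Algebra.subset_adjoin ⟨p.1, rfl⟩) (hωm p.2))
  choose A1 hA1 using h2
  refine ⟨t, r, ω, 1 + |A0| + ∑ p, |A1 p|, Finset.prod_ne_zero_iff.2 fun i _ => hc0 i, ?_, ?_, ?_⟩
  · have := Finset.sum_nonneg (s := Finset.univ) fun p _ => abs_nonneg (A1 p)
    have := abs_nonneg A0
    linarith
  · refine hA0.mono ?_
    have := Finset.sum_nonneg (s := Finset.univ) fun p _ => abs_nonneg (A1 p)
    have := le_abs_self A0
    linarith
  · intro i k
    refine (hA1 (i, k)).mono ?_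
    have := Finset.single_le_sum (f := fun p => |A1 p|) (fun _ _ => abs_nonneg _)
      (Finset.mem_univ (i, k))
    have := le_abs_self (A1 (i, k))
    have := abs_nonneg A0
    linarith

/-- All coefficients have bounded integer coordinates. -/
def PRep {r : ℕ} {σ : Type} (ω : Fin r → ℝ) (B : ℝ) (Q : MvPolynomial σ ℝ) : Prop :=
  ∀ I, Rep ω B (coeff I Q)

theorem PRep.one {r : ℕ} {σ : Type} {ω : Fin r → ℝ} {A : ℝ} (hA : 0 ≤ A) (h : Rep ω A 1) :
    PRep ω A (1 : MvPolynomial σ ℝ) := by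
  classical
  intro I
  rw [coeff_one]
  split_ifs
  · exact h
  · exact Rep.zero ω hA

theorem PRep.lin {r : ℕ} {σ ι : Type} [Fintype ι] {ω : Fin r → ℝ} {A B : ℝ} (hA : 0 ≤ A)
    (hB : 0 ≤ B) (y : ι → ℝ) (v : ι → σ) (hy : ∀ j k, Rep ω A (y j * ω k))
    {Q : MvPolynomial σ ℝ} (h : PRep ω B Q) :
    PRep ω (Fintype.card ι * r * A * B) ((∑ j, C (y j) * X (v j)) * Q) := by
  classical
  intro I
  rw [Finset.sum_mul, coeff_sum]
  have : (Fintype.card ι : ℝ) * r * A * B = Fintype.card ι * (r * A * B) := by ring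
  rw [this]
  refine Rep.sum fun j => ?_
  rw [mul_assoc (C (y j)), coeff_C_mul, coeff_X_mul']
  refine Rep.mul (hy j) hA ?_
  split_ifs
  · exact h _
  · exact Rep.zero ω hB

theorem PRep.pow {r : ℕ} {σ : Type} {ω : Fin r → ℝ} {D : ℝ} (hD : 0 ≤ D) {L : MvPolynomial σ ℝ}
    (hL : ∀ (B : ℝ) (Q : MvPolynomial σ ℝ), 0 ≤ B → PRep ω B Q → PRep ω (D * B) (L * Q))
    (n : ℕ) {B : ℝ} (hB : 0 ≤ B) {Q : MvPolynomial σ ℝ} (h : PRep ω B Q) :
    PRep ω (D ^ n * B) (L ^ n * Q) := by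
  induction n with
  | zero => simpa using h
  | succ n ih =>
    have := hL _ _ (by positivity) ih
    rwa [← mul_assoc, ← mul_assoc, ← pow_succ', ← pow_succ'] at this

theorem PRep.prod {r : ℕ} {σ τ : Type} {ω : Fin r → ℝ} {D A : ℝ} (hD : 0 ≤ D) (hA : 0 ≤ A)
    (h1 : Rep ω A 1) (L : τ → MvPolynomial σ ℝ)
    (hL : ∀ s (B : ℝ) (Q : MvPolynomial σ ℝ), 0 ≤ B → PRep ω B Q → PRep ω (D * B) (L s * Q))
    (J : τ → ℕ) (S : Finset τ) :
    PRep ω (D ^ (∑ s ∈ S, J s) * A) (∏ s ∈ S, L s ^ J s) := by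
  classical
  induction S using Finset.induction_on with
  | empty => simpa using PRep.one hA h1
  | insert s S hs ih =>
    rw [Finset.prod_insert hs, Finset.sum_insert hs, pow_add, mul_assoc]
    exact PRep.pow hD (hL s) _ (by positivity) ih

attribute [local instance] Matrix.seminormedAddCommGroup in
/-- Siegel's lemma with at least twice as many unknowns as equations. -/
theorem siegel {α β : Type} [Fintype α] [Fintype β] (A : α → β → ℤ) (B : ℝ) (hB : 1 ≤ B)
    (hA : ∀ a b, |(A a b : ℝ)| ≤ B) (h : 2 * Fintype.card α ≤ Fintype.card β)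
    (hβ : 0 < Fintype.card β) :
    ∃ t : β → ℤ, t ≠ 0 ∧ (∀ a, ∑ b, A a b * t b = 0) ∧ ∀ b, |(t b : ℝ)| ≤ Fintype.card β * B := by
  have hβ1 : (1 : ℝ) ≤ Fintype.card β := by exact_mod_cast hβ
  rcases Nat.eq_zero_or_pos (Fintype.card α) with h0 | h0
  · have : IsEmpty α := Fintype.card_eq_zero_iff.1 h0
    obtain ⟨b⟩ := Fintype.card_pos_iff.1 hβ
    refine ⟨fun _ => 1, fun hh => one_ne_zero (congrFun hh b), fun a => isEmptyElim a, fun b => ?_⟩
    simp only [Int.cast_one, abs_one]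
    nlinarith
  · obtain ⟨t, ht0, ht, htn⟩ :=
      Int.Matrix.exists_ne_zero_int_vec_norm_le (Matrix.of A) (by omega) h0
    refine ⟨t, ht0, fun a => congrFun ht a, fun b => ?_⟩
    have h1 : ‖Matrix.of A‖ ≤ B := by
      rw [Matrix.norm_le_iff (by linarith)]
      intro i j
      rw [Int.norm_eq_abs]
      exact hA i j
    have h2 : |(t b : ℝ)| ≤ ‖t‖ := by
      rw [← Int.norm_eq_abs]
      exact norm_le_pi_norm t b
    have h3 : (1 : ℝ) ≤ Fintype.card β * max 1 ‖Matrix.of A‖ := by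
      have := le_max_left (1 : ℝ) ‖Matrix.of A‖
      nlinarith
    have h4 : (Fintype.card α : ℝ) / (Fintype.card β - Fintype.card α) ≤ 1 := by
      have h5 : (2 : ℝ) * Fintype.card α ≤ Fintype.card β := by exact_mod_cast h
      have h6 : (0 : ℝ) < Fintype.card α := by exact_mod_cast h0
      rw [div_le_one (by linarith)]
      linarith
    refine h2.trans (htn.trans ((Real.rpow_le_rpow_of_exponent_le h3 h4).trans ?_))
    rw [Real.rpow_one]
    exact mul_le_mul_of_nonneg_left (max_le hB h1) (by linarith)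

end Pool.Agent.MP_077ac3_nt.H56
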