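import Pool.Agent.MP_077ac3_nt.H18.Defs
import Pool.Agent.MP_077ac3_nt.H56.Rep
import Pool.Agent.MP_077ac3_nt.H56.Count

set_option autoImplicit false

/-!
The auxiliary polynomial.
-/

namespace Pool.Agent.MP_077ac3_nt.H56

open MvPolynomial Finset

/-- An exponent array as a monomial. -/
noncomputable def toF {m : ℕ} {ι : Type} [Fintype ι] (J : Fin m → ι → ℕ) : Fin m × ι →₀ ℕ :=
  Finsupp.equivFunOnFinite.symm fun s => J s.1 s.2

theorem toF_apply {m : ℕ} {ι : Type} [Fintype ι] (J : Fin m → ι → ℕ) (s : Fin m × ι) :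
    toF J s = J s.1 s.2 := rfl

theorem toF_inj {m : ℕ} {ι : Type} [Fintype ι] {J J' : Fin m → ι → ℕ} (h : toF J = toF J') :
    J = J' := by
  funext a i
  exact DFunLike.congr_fun h (a, i)

theorem toF_curry {m : ℕ} {ι : Type} [Fintype ι] (I : Fin m × ι →₀ ℕ) :
    toF (fun h i => I (h, i)) = I := by
  ext s
  rfl

theorem linSub_monomial {m : ℕ} {ι : Type} [Fintype ι] (M : Matrix ι ι ℝ) (J : Fin m × ι →₀ ℕ)
    (a : ℤ) : H18.linSub M (monomial J a) =
      C (a : ℝ) * ∏ s : Fin m × ι, (∑ j, C (M s.2 j) * X (s.1, j)) ^ J s := by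
  rw [H18.linSub, aeval_monomial, Finsupp.prod_fintype _ _ (fun _ => pow_zero _)]
  simp

theorem prod_hom {m : ℕ} {ι : Type} [Fintype ι] (M : Matrix ι ι ℝ) (J : Fin m × ι → ℕ)
    (I : Fin m × ι →₀ ℕ)
    (hI : coeff I (∏ s : Fin m × ι, (∑ j, C (M s.2 j) * X (s.1, j) :
      MvPolynomial (Fin m × ι) ℝ) ^ J s) ≠ 0) (h : Fin m) :
    ∑ i, I (h, i) = ∑ i, J (h, i) := by
  classical
  set w : Fin m × ι → ℕ := fun s => if s.1 = h then 1 else 0 with hw
  have h1 : IsWeightedHomogeneous w (∏ s : Fin m × ι, (∑ j, C (M s.2 j) * X (s.1, j) :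
      MvPolynomial (Fin m × ι) ℝ) ^ J s) (∑ s : Fin m × ι, J s • w s) := by
    refine IsWeightedHomogeneous.prod _ _ _ fun s _ => IsWeightedHomogeneous.pow ?_ _
    refine IsWeightedHomogeneous.sum _ _ _ fun j _ => ?_
    exact (isWeightedHomogeneous_X ℝ w (s.1, j)).C_mul _
  have h2 := h1 hI
  rw [Finsupp.weight_eq_sum] at h2
  have h3 : ∀ F : Fin m × ι → ℕ, ∑ s : Fin m × ι, F s • w s = ∑ i, F (h, i) := by
    intro F
    rw [Fintype.sum_prod_type, Finset.sum_eq_single h]
    · simp [hw]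
    · intro b _ hb
      simp [hw, hb]
    · simp
  rw [← h3 I, ← h3 J, h2]

theorem aux : H18.AuxStmt := by
  classical
  intro ι _ _ _ M hM ε hε
  obtain ⟨t, r, ω, A, ht, hA, h1, hy⟩ :=
    exists_frame (κ := ι × ι) (fun p => M p.1 p.2) (fun p => hM _ _)
  have hN : (1 : ℝ) ≤ Fintype.card ι := by exact_mod_cast Fintype.card_pos
  obtain ⟨m0, hm0⟩ := exists_nat_ge ((2 * r + 2) * (Fintype.card ι : ℝ) / ε ^ 2)
  set D : ℝ := 1 + Fintype.card ι * r * A with hD
  have hD1 : 1 ≤ D := by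
    have : 0 ≤ (Fintype.card ι : ℝ) * r * A := by positivity
    linarith
  have h2N : (1 : ℝ) ≤ 2 ^ Fintype.card ι := one_le_pow₀ (by norm_num)
  refine ⟨m0 + 1, Nat.succ_pos _, (2 ^ Fintype.card ι) * (2 ^ Fintype.card ι) * D * A,
    one_le_mul_of_one_le_of_one_le (one_le_mul_of_one_le_of_one_le
      (one_le_mul_of_one_le_of_one_le h2N h2N) hD1) hA, fun d hd => ?_⟩
  set n : ℕ := ∑ h, d h with hn
  have hn1 : 1 ≤ n := (hd 0).trans_le
    (Finset.single_le_sum (f := d) (fun _ _ => Nat.zero_le _) (mem_univ 0))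
  set Gd := (box ι d).filter fun J => Good d ε J with hGd
  set Bd := (box ι d).filter fun J => ¬ Good d ε J with hBd
  have hsplit : Gd.card + Bd.card = (box ι d).card := Finset.card_filter_add_card_filter_not _
  have hbad : (2 * r + 2) * Bd.card ≤ (box ι d).card := by
    have h2 := bad_card_le ι d hd ε hε (Nat.succ_pos _)
    have h3 : (2 * r + 2) * (Fintype.card ι : ℝ) ≤ ((m0 + 1 : ℕ) : ℝ) * ε ^ 2 := by
      rw [div_le_iff₀ (by positivity)] at hm0
      push_cast
      nlinarith [sq_nonneg ε]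
    have h4 : (0 : ℝ) ≤ Bd.card := Nat.cast_nonneg _
    have h5 : (Fintype.card ι : ℝ) * ((2 * r + 2) * Bd.card) ≤
        Fintype.card ι * (box ι d).card := by
      refine le_trans ?_ h2
      calc (Fintype.card ι : ℝ) * ((2 * r + 2) * Bd.card)
          = Bd.card * ((2 * r + 2) * (Fintype.card ι : ℝ)) := by ring
        _ ≤ _ := mul_le_mul_of_nonneg_left h3 h4
    have h6 := le_of_mul_le_mul_left h5 (by linarith)
    exact_mod_cast h6
  have hpos := box_card_pos ι d
  set L : Fin (m0 + 1) × ι → MvPolynomial (Fin (m0 + 1) × ι) ℝ :=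
    fun s => ∑ j, C (M s.2 j) * X (s.1, j) with hL
  have hrep : ∀ J : Gd, ∀ I, Rep ω (D ^ n * A)
      ((t : ℝ) ^ n * coeff I (∏ s : Fin (m0 + 1) × ι, L s ^ J.1 s.1 s.2)) := by
    intro J I
    have hJ := mem_box.1 (Finset.mem_filter.1 J.2).1
    have hs : ∑ s : Fin (m0 + 1) × ι, J.1 s.1 s.2 = n := by
      rw [Fintype.sum_prod_type, hn]
      exact Finset.sum_congr rfl fun h _ => hJ h
    have h2 := PRep.prod (σ := Fin (m0 + 1) × ι) (D := D) (by linarith) (by linarith) h1
      (fun s => C (t : ℝ) * L s) (fun s B Q hB hQ => by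
        have h3 := PRep.lin (by linarith) hB (fun j => (t : ℝ) * M s.2 j) (fun j => (s.1, j))
          (fun j k => hy (s.2, j) k) hQ
        have h4 : (∑ j, C ((t : ℝ) * M s.2 j) * X (s.1, j) : MvPolynomial (Fin (m0 + 1) × ι) ℝ) =
            C (t : ℝ) * L s := by
          rw [hL, Finset.mul_sum]
          simp only [C_mul, mul_assoc]
        rw [h4] at h3
        intro I
        refine (h3 I).mono (mul_le_mul_of_nonneg_right ?_ hB)
        linarith) (fun s => J.1 s.1 s.2) univ I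
    simp only [mul_pow, Finset.prod_mul_distrib, Finset.prod_pow_eq_pow_sum, hs] at h2
    rwa [← C_pow, coeff_C_mul] at h2
  choose a ha hQ using hrep
  have hB1 : 1 ≤ D ^ n * A := one_le_mul_of_one_le_of_one_le (one_le_pow₀ hD1) hA
  obtain ⟨p, hp0, hp, hpB⟩ := siegel (α := Bd × Fin r) (β := Gd)
    (fun e J => a J (toF e.1.1) e.2) (D ^ n * A) hB1 (fun e J => ha _ _ _)
    (by simp only [Fintype.card_prod, Fintype.card_coe, Fintype.card_fin]; nlinarith)
    (by simp only [Fintype.card_coe]; nlinarith)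
  set P : MvPolynomial (Fin (m0 + 1) × ι) ℤ := ∑ J : Gd, monomial (toF J.1) (p J) with hP
  have hco : ∀ J : Gd, coeff (toF J.1) P = p J := by
    intro J
    rw [hP, coeff_sum, Finset.sum_eq_single J]
    · simp
    · intro J' _ hne
      rw [coeff_monomial, if_neg]
      exact fun hh => hne (Subtype.ext (toF_inj hh))
    · simp
  have hsupp : ∀ I ∈ P.support, ∃ J : Gd, toF J.1 = I := by
    intro I hI
    by_contra hne
    rw [not_exists] at hne
    refine mem_support_iff.1 hI ?_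
    rw [hP, coeff_sum]
    exact Finset.sum_eq_zero fun J _ => by rw [coeff_monomial, if_neg (hne J)]
  refine ⟨P, ?_, ?_, ?_, ?_, ?_⟩
  · intro h0
    refine hp0 (funext fun J => ?_)
    rw [← hco J, h0]
    simp
  · intro I hI h
    obtain ⟨J, rfl⟩ := hsupp I hI
    exact mem_box.1 (Finset.mem_filter.1 J.2).1 h
  · have hc : (Gd.card : ℝ) ≤ (2 ^ Fintype.card ι) ^ n := by
      have : Gd.card ≤ (2 ^ Fintype.card ι) ^ n := le_trans (by omega) (box_card_le ι d)
      exact_mod_cast this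
    have hs : (P.support.card : ℝ) ≤ Gd.card := by
      have : P.support ⊆ Gd.image toF := fun I hI => by
        obtain ⟨J, rfl⟩ := hsupp I hI
        exact Finset.mem_image_of_mem _ J.2
      exact_mod_cast (Finset.card_le_card this).trans Finset.card_image_le
    have hAn : A ≤ A ^ n := le_self_pow₀ hA (by omega)
    calc H18.l1 P ≤ ∑ _I ∈ P.support, (Gd.card : ℝ) * (D ^ n * A) := by
          refine Finset.sum_le_sum fun I hI => ?_
          obtain ⟨J, rfl⟩ := hsupp I hI
          rw [hco J]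
          simpa using hpB J
      _ = P.support.card * ((Gd.card : ℝ) * (D ^ n * A)) := by simp
      _ ≤ (2 ^ Fintype.card ι) ^ n * ((2 ^ Fintype.card ι) ^ n * (D ^ n * A ^ n)) := by
          gcongr
          exact hs.trans hc
      _ = _ := by simp only [mul_pow, mul_assoc]
  · intro I hI i
    obtain ⟨J, rfl⟩ := hsupp I hI
    exact (Finset.mem_filter.1 J.2).2 i
  · intro I hI
    have hI' := mem_support_iff.1 hI
    have hco2 : coeff I (H18.linSub M P) =
        ∑ J : Gd, (p J : ℝ) * coeff I (∏ s : Fin (m0 + 1) × ι, L s ^ J.1 s.1 s.2) := by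
      rw [hP, map_sum, coeff_sum]
      refine Finset.sum_congr rfl fun J _ => ?_
      rw [linSub_monomial, coeff_C_mul]
      rfl
    have hbox : (fun h i => I (h, i)) ∈ box ι d := by
      rw [hco2] at hI'
      obtain ⟨J, _, hJ⟩ := Finset.exists_ne_zero_of_sum_ne_zero hI'
      refine mem_box.2 fun h => ?_
      rw [prod_hom M (fun s => J.1 s.1 s.2) I (right_ne_zero_of_mul hJ) h]
      exact mem_box.1 (Finset.mem_filter.1 J.2).1 h
    by_contra hbal
    have hmem : (fun h i => I (h, i)) ∈ Bd := Finset.mem_filter.2 ⟨hbox, hbal⟩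
    have ht' : (t : ℝ) ^ n ≠ 0 := pow_ne_zero _ (by exact_mod_cast ht)
    refine hI' (mul_left_cancel₀ ht' ?_)
    rw [hco2, mul_zero, Finset.mul_sum]
    have e1 : ∀ J : Gd, (t : ℝ) ^ n * ((p J : ℝ) *
        coeff I (∏ s : Fin (m0 + 1) × ι, L s ^ J.1 s.1 s.2)) =
          ∑ k, ((a J I k * p J : ℤ) : ℝ) * ω k := by
      intro J
      rw [mul_left_comm, hQ J I, Finset.mul_sum]
      refine Finset.sum_congr rfl fun k _ => ?_
      push_cast
      ring
    simp only [e1]
    rw [Finset.sum_comm]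
    refine Finset.sum_eq_zero fun k _ => ?_
    have e2 := hp (⟨_, hmem⟩, k)
    simp only [toF_curry] at e2
    rw [← Finset.sum_mul, ← Int.cast_sum, e2]
    simp

end Pool.Agent.MP_077ac3_nt.H56
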